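import Pool.Agent.Helper68.Fam.Goals

/-!
# Project FAM (MP_18808e_co): packet TWO3
-/

namespace NApexGraphs.Fam.Helper23

open SimpleGraph NApexGraphs NApexGraphs.Dom NApexGraphs.Fam

/-- the complete graph without the pairs inside a member of `C` -/
def H0 {V : Type} (C : Finset (Finset V)) : SimpleGraph V where
  Adj x y := x ≠ y ∧ ∀ T ∈ C, ¬ (x ∈ T ∧ y ∈ T)
  symm := ⟨fun _ _ h => ⟨h.1.symm, fun T hT h' => h.2 T hT ⟨h'.2, h'.1⟩⟩⟩
  loopless := ⟨fun _ h => h.1 rfl⟩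

/-- a point in three members of `C` has at most two neighbours -/
theorem deg_le {V : Type} [DecidableEq V] {C : Finset (Finset V)} {P : Finset V}
    (hP : P.card = 9) (hsub : ∀ D ∈ C, D ⊆ P) (hc : ∀ D ∈ C, D.card = 3)
    (hp : ∀ D ∈ C, ∀ D' ∈ C, D ≠ D' → (D ∩ D').card ≤ 1) {z : V} {D1 D2 D3 : Finset V}
    (h1 : D1 ∈ C) (h2 : D2 ∈ C) (h3 : D3 ∈ C) (h12 : D1 ≠ D2) (h13 : D1 ≠ D3) (h23 : D2 ≠ D3)
    (z1 : z ∈ D1) (z2 : z ∈ D2) (z3 : z ∈ D3) : degW (H0 C) P z ≤ 2 := by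
  have hU : 7 ≤ (D1 ∪ D2 ∪ D3).card := by
    have e1 := Finset.card_union_add_card_inter D1 D2
    have e2 := Finset.card_union_add_card_inter (D1 ∪ D2) D3
    have e3 : ((D1 ∪ D2) ∩ D3).card ≤ 1 := by
      rw [Finset.card_le_one]
      have key : ∀ a ∈ (D1 ∪ D2) ∩ D3, a = z := by
        intro a ha
        rw [Finset.mem_inter, Finset.mem_union] at ha
        obtain ⟨ha, ha3⟩ := ha
        rcases ha with ha | ha
        · exact Finset.card_le_one.1 (hp D1 h1 D3 h3 h13) a (Finset.mem_inter.2 ⟨ha, ha3⟩) z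
            (Finset.mem_inter.2 ⟨z1, z3⟩)
        · exact Finset.card_le_one.1 (hp D2 h2 D3 h3 h23) a (Finset.mem_inter.2 ⟨ha, ha3⟩) z
            (Finset.mem_inter.2 ⟨z2, z3⟩)
      intro a ha b hb
      rw [key a ha, key b hb]
    have e4 := hp D1 h1 D2 h2 h12
    have e5 := hc D1 h1
    have e6 := hc D2 h2
    have e7 := hc D3 h3
    omega
  have hUP : D1 ∪ D2 ∪ D3 ⊆ P :=
    Finset.union_subset (Finset.union_subset (hsub _ h1) (hsub _ h2)) (hsub _ h3)
  have hle : degW (H0 C) P z ≤ (P \ (D1 ∪ D2 ∪ D3)).card := by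
    unfold degW
    apply Finset.card_le_card
    intro x hx
    obtain ⟨hxP, hzx⟩ := (@Finset.mem_filter _ _ (_) _ _).1 hx
    rw [Finset.mem_sdiff]
    refine ⟨hxP, ?_⟩
    rw [Finset.mem_union, Finset.mem_union]
    rintro ((h | h) | h)
    · exact hzx.2 D1 h1 ⟨z1, h⟩
    · exact hzx.2 D2 h2 ⟨z2, h⟩
    · exact hzx.2 D3 h3 ⟨z3, h⟩
  have hs := Finset.card_sdiff_add_card_eq_card hUP
  omega

theorem gTWO3 : Goals.NORM2 → Goals.KILL → Goals.TWO2 → Goals.ECON → Goals.ECOUNT →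
    Goals.MADER → Goals.TWO3 := by
  intro hN hK h2 hE hC hM V _ _ H P A B S hT hS hpl
  obtain ⟨P', A', B', hT', hPP, hPc, hAP, hBP, hAc, hBc⟩ := hN V H P A B S hT
  have hpl' : Pl H (P' : Set V) := hpl.mono le_rfl (by exact_mod_cast hPP)
  clear hPP hpl hT
  have hk : ∀ T ∈ S, 3 ≤ (T ∩ P').card ∧ (T ∩ A').card ≤ 1 ∧ (T ∩ B').card ≤ 1 := by
    intro T hTS
    by_contra hcon
    have h3 : (T ∩ P').card ≤ 2 ∨ 2 ≤ (T ∩ A').card ∨ 2 ≤ (T ∩ B').card := by omega
    obtain ⟨z, hz, hTw⟩ := hK V H P' A' B' S hT' T hTS h3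
    exact h2 V H (P'.erase z) A' B' (S.erase T) hTw
      (by rw [Finset.card_erase_of_mem hTS, hS])
      (hpl'.mono le_rfl (by exact_mod_cast Finset.erase_subset z P'))
  clear hK h2 hN
  generalize hP0 : P' = Q at *
  clear hP0 P
  generalize hA0 : A' = A1 at *
  clear hA0 A
  generalize hB0 : B' = B1 at *
  clear hB0 B
  rename' Q => P, A1 => A, B1 => B
  have hP9 : P.card = 9 := by omega
  -- facts on triples
  have hc3 : ∀ T ∈ S, T.card = 3 := by
    intro T hTS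
    have e1 := (hk T hTS).1
    have e2 := hT'.cT T hTS
    have e3 := Finset.card_le_card (Finset.inter_subset_left (s₁ := T) (s₂ := P))
    omega
  have hsP : ∀ T ∈ S, T ⊆ P := by
    intro T hTS
    have e1 := (hk T hTS).1
    have e2 := hc3 T hTS
    have e3 : T ∩ P = T :=
      Finset.eq_of_subset_of_card_le Finset.inter_subset_left (by omega)
    exact Finset.inter_eq_left.1 e3
  set C : Finset (Finset V) := insert A (insert B S) with hCdef
  have hAC : A ∈ C := Finset.mem_insert_self _ _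
  have hBC : B ∈ C := Finset.mem_insert_of_mem (Finset.mem_insert_self _ _)
  have hSC : ∀ T ∈ S, T ∈ C := fun T hTS =>
    Finset.mem_insert_of_mem (Finset.mem_insert_of_mem hTS)
  have hCmem : ∀ D ∈ C, D = A ∨ D = B ∨ D ∈ S := by
    intro D hD
    rw [hCdef, Finset.mem_insert, Finset.mem_insert] at hD
    exact hD
  have hCc : ∀ D ∈ C, D.card = 3 := by
    intro D hD
    rcases hCmem D hD with h | h | h
    · rw [h]; exact hAc
    · rw [h]; exact hBc
    · exact hc3 D h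
  have hCs : ∀ D ∈ C, D ⊆ P := by
    intro D hD
    rcases hCmem D hD with h | h | h
    · rw [h]; exact hAP
    · rw [h]; exact hBP
    · exact hsP D h
  have hCp : ∀ D ∈ C, ∀ D' ∈ C, D ≠ D' → (D ∩ D').card ≤ 1 := by
    have hdis : (A ∩ B).card ≤ 1 := by
      rw [Finset.disjoint_iff_inter_eq_empty.1 hT'.dis]; simp
    intro D hD D' hD' hne
    rcases hCmem D hD with h | h | h <;> rcases hCmem D' hD' with h' | h' | h'
    · exact absurd (h.trans h'.symm) hne
    · rw [h, h']; exact hdis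
    · rw [h, Finset.inter_comm]; exact (hk D' h').2.1
    · rw [h, h', Finset.inter_comm]; exact hdis
    · exact absurd (h.trans h'.symm) hne
    · rw [h, Finset.inter_comm]; exact (hk D' h').2.2
    · rw [h']; exact (hk D h).2.1
    · rw [h']; exact (hk D h).2.2
    · exact hT'.pair D h D' h' hne
  have hASn : ∀ T ∈ S, A ≠ T := by
    intro T hTS h
    have := (hk T hTS).2.1
    rw [← h, Finset.inter_self] at this
    omega
  have hBSn : ∀ T ∈ S, B ≠ T := by
    intro T hTS h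
    have := (hk T hTS).2.2
    rw [← h, Finset.inter_self] at this
    omega
  have hCle : C.card ≤ 5 := by
    have e1 := Finset.card_insert_le A (insert B S)
    have e2 := Finset.card_insert_le B S
    rw [← hCdef] at e1
    omega
  have hew : 42 ≤ eW (H0 C) P := by
    have e1 := hC V (H0 C) P C (fun D hD => (hCc D hD).le) (fun x _ y _ hne h => ⟨hne, h⟩)
    rw [hP9] at e1
    omega
  -- from `H0` to `H`
  have hfin : HasK5 (H0 C) (P : Set V) → False := by
    intro h5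
    have hnp : ¬ Pl (H0 C) (P : Set V) := fun h => h.1 h5
    refine not_pl_congr ?_ hnp hpl'
    intro x hx y hy hxy
    have hx' : x ∈ P := by exact_mod_cast hx
    have hy' : y ∈ P := by exact_mod_cast hy
    exact hT'.adj x hx' y hy' hxy.1 (hxy.2 A hAC) (hxy.2 B hBC) fun T hTS => hxy.2 T (hSC T hTS)
  have hdeg : ∀ z ∈ P, degW (H0 C) P z ≤ 2 → False := by
    intro z hz hle
    have e1 := (hE V (H0 C) P z z hz).1
    have e2 : (P.erase z).card = 8 := by rw [Finset.card_erase_of_mem hz, hP9]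
    have h5 := hM V (H0 C) (P.erase z) (by omega) (by omega)
    exact hfin (h5.mono le_rfl (by exact_mod_cast Finset.erase_subset z P))
  have hcom : ∀ x ∈ P, ∀ y ∈ P, (H0 C).Adj x y → comN (H0 C) P x y ≤ 1 → False := by
    intro x hx y hy hxy hle
    have e1 := (hE V (H0 C) P x y hx).2 hy hxy
    have e2 : (P.erase x).card = 8 := by rw [Finset.card_erase_of_mem hx, hP9]
    have h5 := hM V (addN (H0 C) x y) (P.erase x) (by omega) (by omega)
    apply hfin
    refine HasK5.lift hxy (by exact_mod_cast hx) ?_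
    rwa [Finset.coe_erase] at h5
  -- (1)
  have h1 : ∀ z, ∀ D1 ∈ C, ∀ D2 ∈ C, ∀ D3 ∈ C, D1 ≠ D2 → D1 ≠ D3 → D2 ≠ D3 → z ∈ D1 →
      z ∈ D2 → z ∈ D3 → False := by
    intro z D1 hD1 D2 hD2 D3 hD3 n12 n13 n23 z1 z2 z3
    exact hdeg z (hCs D1 hD1 z1)
      (deg_le hP9 hCs hCc hCp hD1 hD2 hD3 n12 n13 n23 z1 z2 z3)
  have uA : ∀ a ∈ A, ∀ T ∈ S, ∀ T' ∈ S, a ∈ T → a ∈ T' → T = T' := by
    intro a ha T hTS T' hTS' haT haT'
    by_contra hne
    exact h1 a A hAC T (hSC T hTS) T' (hSC T' hTS') (hASn T hTS) (hASn T' hTS') hne ha haT haT'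
  have uB : ∀ a ∈ B, ∀ T ∈ S, ∀ T' ∈ S, a ∈ T → a ∈ T' → T = T' := by
    intro a ha T hTS T' hTS' haT haT'
    by_contra hne
    exact h1 a B hBC T (hSC T hTS) T' (hSC T' hTS') (hBSn T hTS) (hBSn T' hTS') hne ha haT haT'
  have dAB : ∀ a ∈ A, a ∉ B := fun a ha hb => Finset.disjoint_left.1 hT'.dis ha hb
  -- the set `W`
  obtain ⟨W, hWdef⟩ : ∃ W, W = P \ (A ∪ B) := ⟨_, rfl⟩
  have hWc : W.card = 3 := by
    have e1 := Finset.card_sdiff_add_card_eq_card (Finset.union_subset hAP hBP)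
    have e2 := Finset.card_union_of_disjoint hT'.dis
    rw [← hWdef] at e1
    omega
  have hWm : ∀ x ∈ P, x ∉ A → x ∉ B → x ∈ W := by
    intro x hx hA hB
    rw [hWdef, Finset.mem_sdiff, Finset.mem_union]
    exact ⟨hx, fun h => h.elim hA hB⟩
  -- (U)
  have hU : ∀ a ∈ A, ∀ b ∈ B, (∀ T ∈ S, ¬ (a ∈ T ∧ b ∈ T)) → ∀ w ∈ W, ∀ w' ∈ W, w ≠ w' →
      (∃ T ∈ S, w ∈ T ∧ (a ∈ T ∨ b ∈ T)) → (∃ T ∈ S, w' ∈ T ∧ (a ∈ T ∨ b ∈ T)) → False := by
    intro a ha b hb hab w hw w' hw' hne ht ht'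
    have hadj : (H0 C).Adj a b := by
      refine ⟨fun h => dAB a ha (h ▸ hb), ?_⟩
      intro D hD
      rcases hCmem D hD with h | h | h
      · rw [h]; exact fun h' => dAB b h'.2 hb
      · rw [h]; exact fun h' => dAB a ha h'.1
      · exact hab D h
    refine hcom a (hAP ha) b (hBP hb) hadj ?_
    have hle : comN (H0 C) P a b ≤ ((W.erase w).erase w').card := by
      unfold comN
      apply Finset.card_le_card
      intro x hx
      obtain ⟨hxP, hax, hbx⟩ := (@Finset.mem_filter _ _ (_) _ _).1 hx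
      have hxA : x ∉ A := fun h => hax.2 A hAC ⟨ha, h⟩
      have hxB : x ∉ B := fun h => hbx.2 B hBC ⟨hb, h⟩
      have gen : ∀ v, (∃ T ∈ S, v ∈ T ∧ (a ∈ T ∨ b ∈ T)) → x ≠ v := by
        rintro v ⟨T, hTS, hvT, hab'⟩ hxv
        rw [← hxv] at hvT
        rcases hab' with h | h
        · exact hax.2 T (hSC T hTS) ⟨h, hvT⟩
        · exact hbx.2 T (hSC T hTS) ⟨h, hvT⟩
      rw [Finset.mem_erase, Finset.mem_erase]
      exact ⟨gen w' ht', gen w ht, hWm x hxP hxA hxB⟩
    have e1 : ((W.erase w).erase w').card = 1 := by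
      rw [Finset.card_erase_of_mem (Finset.mem_erase.2 ⟨hne.symm, hw'⟩),
        Finset.card_erase_of_mem hw, hWc]
    omega
  -- decomposition of the triples
  have hdec : ∀ T ∈ S, T.card = (T ∩ A).card + (T ∩ B).card + (T ∩ W).card := by
    intro T hTS
    have e0 : T = (T ∩ A ∪ T ∩ B) ∪ T ∩ W := by
      ext x
      rw [Finset.mem_union, Finset.mem_union, Finset.mem_inter, Finset.mem_inter,
        Finset.mem_inter]
      constructor
      · intro hx
        by_cases hA : x ∈ A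
        · exact Or.inl (Or.inl ⟨hx, hA⟩)
        · by_cases hB : x ∈ B
          · exact Or.inl (Or.inr ⟨hx, hB⟩)
          · exact Or.inr ⟨hx, hWm x (hsP T hTS hx) hA hB⟩
      · rintro ((h | h) | h)
        · exact h.1
        · exact h.1
        · exact h.1
    have d1 : Disjoint (T ∩ A) (T ∩ B) := by
      rw [Finset.disjoint_left]
      intro x hx hx'
      exact dAB x (Finset.mem_inter.1 hx).2 (Finset.mem_inter.1 hx').2
    have d2 : Disjoint (T ∩ A ∪ T ∩ B) (T ∩ W) := by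
      rw [Finset.disjoint_left]
      intro x hx hx'
      have hxW := (Finset.mem_inter.1 hx').2
      rw [hWdef, Finset.mem_sdiff, Finset.mem_union] at hxW
      rcases Finset.mem_union.1 hx with h | h
      · exact hxW.2 (Or.inl (Finset.mem_inter.1 h).2)
      · exact hxW.2 (Or.inr (Finset.mem_inter.1 h).2)
    calc T.card = ((T ∩ A ∪ T ∩ B) ∪ T ∩ W).card := congrArg Finset.card e0
      _ = _ := by rw [Finset.card_union_of_disjoint d2, Finset.card_union_of_disjoint d1]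
  -- (2) and (2')
  have hcase : ∀ T ∈ S, T = W ∨ ∃ a ∈ A, a ∈ T ∧ ∃ b ∈ B, b ∈ T ∧ ∃ w ∈ W, w ∈ T := by
    intro T hTS
    have e0 := hdec T hTS
    have e1 := hc3 T hTS
    have e2 := (hk T hTS).2.1
    have e3 := (hk T hTS).2.2
    by_cases hA : (T ∩ A).card = 0
    · by_cases hB : (T ∩ B).card = 0
      · left
        have e4 : T ∩ W = T :=
          Finset.eq_of_subset_of_card_le Finset.inter_subset_left (by omega)
        exact Finset.eq_of_subset_of_card_le (Finset.inter_eq_left.1 e4) (by omega)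
      · exfalso
        have e4 : 1 < (T ∩ W).card := by omega
        obtain ⟨w, hw, w', hw', hne⟩ := Finset.one_lt_card.1 e4
        rw [Finset.mem_inter] at hw hw'
        obtain ⟨b, hb⟩ := Finset.card_pos.1 (Nat.pos_of_ne_zero hB)
        rw [Finset.mem_inter] at hb
        obtain ⟨a, ha⟩ : A.Nonempty := Finset.card_pos.1 (by omega)
        refine hU a ha b hb.2 ?_ w hw.2 w' hw'.2 hne ⟨T, hTS, hw.1, Or.inr hb.1⟩
          ⟨T, hTS, hw'.1, Or.inr hb.1⟩
        intro T' hTS' h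
        have e5 : T = T' := uB b hb.2 T hTS T' hTS' hb.1 h.2
        rw [← e5] at h
        exact absurd (Finset.card_eq_zero.1 hA)
          (Finset.nonempty_iff_ne_empty.1 ⟨a, Finset.mem_inter.2 ⟨h.1, ha⟩⟩)
    · by_cases hB : (T ∩ B).card = 0
      · exfalso
        have e4 : 1 < (T ∩ W).card := by omega
        obtain ⟨w, hw, w', hw', hne⟩ := Finset.one_lt_card.1 e4
        rw [Finset.mem_inter] at hw hw'
        obtain ⟨a, ha⟩ := Finset.card_pos.1 (Nat.pos_of_ne_zero hA)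
        rw [Finset.mem_inter] at ha
        obtain ⟨b, hb⟩ : B.Nonempty := Finset.card_pos.1 (by omega)
        refine hU a ha.2 b hb ?_ w hw.2 w' hw'.2 hne ⟨T, hTS, hw.1, Or.inl ha.1⟩
          ⟨T, hTS, hw'.1, Or.inl ha.1⟩
        intro T' hTS' h
        have e5 : T = T' := uA a ha.2 T hTS T' hTS' ha.1 h.1
        rw [← e5] at h
        exact absurd (Finset.card_eq_zero.1 hB)
          (Finset.nonempty_iff_ne_empty.1 ⟨b, Finset.mem_inter.2 ⟨h.2, hb⟩⟩)
      · right
        obtain ⟨a, ha⟩ := Finset.card_pos.1 (Nat.pos_of_ne_zero hA)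
        obtain ⟨b, hb⟩ := Finset.card_pos.1 (Nat.pos_of_ne_zero hB)
        obtain ⟨w, hw⟩ : (T ∩ W).Nonempty := Finset.card_pos.1 (by omega)
        rw [Finset.mem_inter] at ha hb hw
        exact ⟨a, ha.2, ha.1, b, hb.2, hb.1, w, hw.2, hw.1⟩
  -- (3)
  have hsame : ∀ T ∈ S, ∀ T' ∈ S, T ≠ T' → ∀ a ∈ A, a ∈ T → ∀ w ∈ W, w ∈ T → ∀ b ∈ B, b ∈ T' →
      ∀ w' ∈ W, w' ∈ T' → w = w' := by
    intro T hTS T' hTS' hne a ha haT w hw hwT b hb hbT' w' hw' hwT'
    by_contra hww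
    refine hU a ha b hb ?_ w hw w' hw' hww ⟨T, hTS, hwT, Or.inl haT⟩
      ⟨T', hTS', hwT', Or.inr hbT'⟩
    intro T'' hTS'' h
    exact hne ((uA a ha T hTS T'' hTS'' haT h.1).trans (uB b hb T' hTS' T'' hTS'' hbT' h.2).symm)
  -- (4)
  obtain ⟨T1, T2, T3, n12, n13, n23, hS3⟩ := Finset.card_eq_three.1 hS
  have m1 : T1 ∈ S := by rw [hS3]; simp
  have m2 : T2 ∈ S := by rw [hS3]; simp
  have m3 : T3 ∈ S := by rw [hS3]; simp
  have hall : ∀ T ∈ S, ∀ a ∈ A, a ∈ T → ∀ b ∈ B, b ∈ T → ∀ w ∈ W, w ∈ T → False := by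
    intro T hTS a ha haT b hb hbT w hw hwT
    have hw_all : ∀ T' ∈ S, w ∈ T' := by
      intro T' hTS'
      by_cases hTT : T = T'
      · rw [← hTT]; exact hwT
      · rcases hcase T' hTS' with h | ⟨a', ha', haT', b', hb', hbT', w', hw', hwT'⟩
        · rw [h]; exact hw
        · rw [hsame T hTS T' hTS' hTT a ha haT w hw hwT b' hb' hbT' w' hw' hwT']
          exact hwT'
    exact h1 w T1 (hSC _ m1) T2 (hSC _ m2) T3 (hSC _ m3) n12 n13 n23 (hw_all _ m1)
      (hw_all _ m2) (hw_all _ m3)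
  rcases hcase T1 m1 with h | ⟨a, ha, haT, b, hb, hbT, w, hw, hwT⟩
  · rcases hcase T2 m2 with h' | ⟨a, ha, haT, b, hb, hbT, w, hw, hwT⟩
    · exact n12 (h.trans h'.symm)
    · exact hall T2 m2 a ha haT b hb hbT w hw hwT
  · exact hall T1 m1 a ha haT b hb hbT w hw hwT

end NApexGraphs.Fam.Helper23
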